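import Mathlib
import Pool.Agent.V11255.TR4
import Pool.Agent.H139R3.FM
import Pool.Agent.H139R3.MF.Top

set_option autoImplicit false

/-!
# Transitive continuous action realizations of nonsmooth aperiodic relations

If the relation is not smooth, then for a Polish topology making Borel involutions continuous some
orbit closure is perfect; a comeager invariant part `Z` of it is Borel isomorphic to countably many
copies of itself. Copies of `Z` indexed by pairs (point of a countable dense invariant subset of the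
complement, natural number) are put on shrinking isolated pieces converging to the complement.
-/

namespace Pool.Agent.Results.MP_06d84d_lc.TransitivePerfect

open Set Topology Filter
open Pool.Agent.V11255.TR

/-- smoothness of an equivalence relation -/
def IsSmooth {X : Type} [MeasurableSpace X] (E : X → X → Prop) : Prop :=
  ∃ f : X → ℝ, Measurable f ∧ ∀ x y, E x y ↔ f x = f y

/-- the topology on the complement of the generic part -/
theorem lemmaB {X1 : Type} [MeasurableSpace X1] [StandardBorelSpace X1] [Nonempty X1]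
    (s1 : ℕ → X1 → X1) (hs1m : ∀ n, Measurable (s1 n))
    (hE1e : Equivalence fun x y : X1 => ∃ n, s1 n x = y)
    (hinf : ∀ x : X1, {y | ∃ n, s1 n x = y}.Infinite) :
    ∃ t1 : TopologicalSpace X1, @PolishSpace X1 t1 ∧ @BorelSpace X1 t1 _ ∧
      (∀ n, @Continuous X1 X1 t1 t1 (s1 n)) ∧ ∃ q : ℕ → X1, Function.Injective q ∧
      @DenseRange X1 t1 ℕ q ∧ ∃ π : ℕ → ℕ → ℕ, ∀ n i, q (π n i) = s1 n (q i) := by
  obtain ⟨t1, hp1, hb1, hs1c⟩ : ∃ t1 : TopologicalSpace X1, @PolishSpace X1 t1 ∧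
      @BorelSpace X1 t1 _ ∧ ∀ n, @Continuous X1 X1 t1 t1 (s1 n) := by
    let := upgradeStandardBorel X1
    obtain ⟨t1, -, hp1, hb1, hsc1, -⟩ := Pool.Agent.H139R3.MF.exists_topology s1 hs1m
      (fun _ : X1 => ()) measurable_const
    exact ⟨t1, hp1, hb1, hsc1⟩
  refine ⟨t1, hp1, hb1, hs1c, ?_⟩
  obtain ⟨D0, hD0c, hD0d⟩ := TopologicalSpace.exists_countable_dense X1
  let Q : Set X1 := ⋃ n, s1 n '' D0
  have hQc : Q.Countable := countable_iUnion fun n => hD0c.image _
  have hQd : Dense Q := by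
    refine hD0d.mono fun x hx => ?_
    obtain ⟨n, hn⟩ := hE1e.refl x
    exact mem_iUnion.2 ⟨n, x, hx, hn⟩
  have hQi : ∀ n x, x ∈ Q → s1 n x ∈ Q := by
    intro n x hx
    obtain ⟨m, y, hy, rfl⟩ := mem_iUnion.1 hx
    obtain ⟨k, hk⟩ := hE1e.trans (⟨m, rfl⟩ : ∃ m', s1 m' y = s1 m y) ⟨n, rfl⟩
    exact mem_iUnion.2 ⟨k, y, hy, hk⟩
  have hQinf : Q.Infinite := by
    obtain ⟨x, hx⟩ := hQd.nonempty
    refine (hinf x).mono ?_
    rintro y ⟨n, rfl⟩
    exact hQi n x hx
  have := hQc.to_subtype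
  have := hQinf.to_subtype
  obtain ⟨e⟩ := nonempty_denumerable Q
  let e' : Q ≃ ℕ := Denumerable.eqv Q
  let q : ℕ → X1 := fun i => (e'.symm i : X1)
  have hqr : ∀ x ∈ Q, ∃ i, q i = x := fun x hx => ⟨e' ⟨x, hx⟩, by simp [q]⟩
  have hqQ : ∀ i, q i ∈ Q := fun i => (e'.symm i).2
  refine ⟨q, fun i j h => e'.symm.injective (Subtype.ext h), ?_, ?_⟩
  · refine hQd.mono fun x hx => ?_
    obtain ⟨i, hi⟩ := hqr x hx
    exact ⟨i, hi⟩
  · choose π hπ using fun (n i : ℕ) => hqr (s1 n (q i)) (hQi n _ (hqQ i))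
    exact ⟨π, hπ⟩

/-- putting the parts together -/
theorem assemble {X X1 Z : Type} [MeasurableSpace X] [TopologicalSpace X1] [PolishSpace X1]
    [MeasurableSpace X1] [BorelSpace X1] [TopologicalSpace Z] [PolishSpace Z] [MeasurableSpace Z]
    [BorelSpace Z] (E : X → X → Prop) (hE : Equivalence E) (ι : Z → X) (κ : X1 → X)
    (hιe : MeasurableEmbedding ι) (hκe : MeasurableEmbedding κ)
    (hcase : ∀ x, (∃ z, x = ι z) ∨ ∃ y, x = κ y) (hdisj : ∀ z y, ι z ≠ κ y)
    (s0 : ℕ → Z → Z) (hs0 : ∀ n, Continuous (s0 n)) (hi0 : ∀ n z, s0 n (s0 n z) = z)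
    (hE0 : ∀ a b : Z, (∃ n, s0 n a = b) ↔ E (ι a) (ι b))
    (s1 : ℕ → X1 → X1) (hs1c : ∀ n, Continuous (s1 n)) (hi1 : ∀ n z, s1 n (s1 n z) = z)
    (hE1 : ∀ a b : X1, (∃ n, s1 n a = b) ↔ E (κ a) (κ b)) (hE01 : ∀ z y, ¬ E (ι z) (κ y))
    (q : ℕ → X1) (hq : Function.Injective q) (hqd : DenseRange q) (π : ℕ → ℕ → ℕ)
    (hπ : ∀ n i, q (π n i) = s1 n (q i)) (w : Z) (θ : Z ≃ᵐ (ℕ × ℕ) × Z)
    (hθE : ∀ z, E (ι z) (ι (θ z).2))
    (hdense : ∀ z : Z, ∀ U, IsOpen U → U.Nonempty → ∃ n, s0 n z ∈ U)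
    (hiso : ∀ z : Z, ¬ IsOpen {z}) :
    ∃ (Y : Type) (_ : TopologicalSpace Y) (_ : PolishSpace Y) (G : Type) (_ : Group G)
      (_ : Countable G) (_ : MulAction G Y) (_ : ContinuousConstSMul G Y) (f : X → Y),
      (∀ y : Y, ¬ IsOpen {y}) ∧ Function.Bijective f ∧ @Measurable X Y _ (borel Y) f ∧
      (∀ x x', E x x' ↔ ∃ g : G, g • f x = f x') ∧
      ∃ y : Y, Dense {z | ∃ g : G, g • y = z} := by
  classical
  have hE0e : Equivalence fun a b : Z => ∃ n, s0 n a = b :=
    ⟨fun a => (hE0 a a).2 (hE.refl _), fun {a b} h => (hE0 b a).2 (hE.symm ((hE0 a b).1 h)),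
      fun {a b c} h h' => (hE0 a c).2 (hE.trans ((hE0 a b).1 h) ((hE0 b c).1 h'))⟩
  have hE1e : Equivalence fun a b : X1 => ∃ n, s1 n a = b :=
    ⟨fun a => (hE1 a a).2 (hE.refl _), fun {a b} h => (hE1 b a).2 (hE.symm ((hE1 a b).1 h)),
      fun {a b c} h h' => (hE1 a c).2 (hE.trans ((hE1 a b).1 h) ((hE1 b c).1 h'))⟩
  -- the map
  have hex : ∀ x : X, ∃ y : YY q w, (∀ z, x = ι z → y = YY.rt (θ z).1 (θ z).2) ∧
      ∀ a, x = κ a → y = YY.lf a := by
    intro x
    rcases hcase x with ⟨z, rfl⟩ | ⟨a, rfl⟩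
    · refine ⟨YY.rt (θ z).1 (θ z).2, fun z' h => ?_, fun a h => absurd h (hdisj z a)⟩
      rw [hιe.injective h]
    · refine ⟨YY.lf a, fun z' h => absurd h.symm (hdisj z' a), fun a' h => ?_⟩
      rw [hκe.injective h]
  choose f f0' f1' using hex
  have f0 : ∀ z, f (ι z) = YY.rt (θ z).1 (θ z).2 := fun z => f0' _ z rfl
  have f1 : ∀ a, f (κ a) = YY.lf a := fun a => f1' _ a rfl
  obtain ⟨G, iG, cG, aG, kG, hG⟩ := exists_action q w s1 hs1c hi1 s0 hs0 hi0 hE1e hE0e hq π hπ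
  have horb : ∀ U : Set Z, IsOpen U → U.Nonempty → ∃ z, (∃ n, s0 n w = z) ∧ z ∈ U := by
    intro U hU hUn
    obtain ⟨n, hn⟩ := hdense w U hU hUn
    exact ⟨_, ⟨n, rfl⟩, hn⟩
  refine ⟨YY q w, inferInstance, inferInstance, G, iG, cG, aG, kG, f, ?_, ⟨?_, ?_⟩, ?_, ?_, ?_⟩
  · exact fun y => not_isolated (E1 := fun x y : X1 => ∃ n, s1 n x = y)
      (E0 := fun x y : Z => ∃ n, s0 n x = y) q w hqd horb (hE0e.refl w) hiso y
  · -- injectivity
    intro x x' h
    rcases hcase x with ⟨z, rfl⟩ | ⟨y, rfl⟩ <;> rcases hcase x' with ⟨z', rfl⟩ | ⟨y', rfl⟩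
    · rw [f0, f0] at h
      obtain ⟨h1, h2⟩ := YY.rt.inj h
      rw [θ.injective (Prod.ext h1 h2)]
    · rw [f0, f1] at h
      exact absurd h (by simp)
    · rw [f0, f1] at h
      exact absurd h (by simp)
    · rw [f1, f1] at h
      rw [YY.lf.inj h]
  · -- surjectivity
    rintro (x | ⟨d, z⟩)
    · exact ⟨κ x, f1 x⟩
    · refine ⟨ι (θ.symm (d, z)), ?_⟩
      rw [f0, θ.apply_symm_apply]
  · -- measurability
    let mY : MeasurableSpace (YY q w) := borel _
    have bY : BorelSpace (YY q w) := ⟨rfl⟩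
    have m0 : Measurable fun z : Z => (YY.rt (θ z).1 (θ z).2 : YY q w) := by
      have h1 : Measurable fun p : (ℕ × ℕ) × Z => (YY.rt p.1 p.2 : YY q w) :=
        measurable_from_prod_countable_right fun d => (continuous_inc q w d).measurable
      exact h1.comp θ.measurable
    have m1 : Measurable (YY.lf : X1 → YY q w) := (continuous_inl q w).measurable
    intro T hT
    have : f ⁻¹' T = ι '' ((fun z : Z => (YY.rt (θ z).1 (θ z).2 : YY q w)) ⁻¹' T) ∪
        κ '' ((YY.lf : X1 → YY q w) ⁻¹' T) := by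
      ext x
      rcases hcase x with ⟨z, rfl⟩ | ⟨y, rfl⟩
      · constructor
        · intro h
          refine Or.inl ⟨z, ?_, rfl⟩
          show (YY.rt (θ z).1 (θ z).2 : YY q w) ∈ T
          rw [← f0]
          exact h
        · rintro (⟨z', h, h'⟩ | ⟨y, h, h'⟩)
          · rw [← h']
            show f (ι z') ∈ T
            rw [f0]
            exact h
          · exact absurd h'.symm (hdisj z y)
      · constructor
        · intro h
          refine Or.inr ⟨y, ?_, rfl⟩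
          show (YY.lf y : YY q w) ∈ T
          rw [← f1]
          exact h
        · rintro (⟨z', h, h'⟩ | ⟨y', h, h'⟩)
          · exact absurd h' (hdisj z' y)
          · rw [← h']
            show f (κ y') ∈ T
            rw [f1]
            exact h
    rw [this]
    exact (hιe.measurableSet_image' (m0 hT)).union (hκe.measurableSet_image' (m1 hT))
  · -- the relation
    intro x x'
    rw [← hG]
    rcases hcase x with ⟨z, rfl⟩ | ⟨y, rfl⟩ <;> rcases hcase x' with ⟨z', rfl⟩ | ⟨y', rfl⟩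
    · rw [f0, f0]
      show _ ↔ ∃ n, s0 n (θ z).2 = (θ z').2
      rw [hE0]
      constructor
      · exact fun h => hE.trans (hE.symm (hθE z)) (hE.trans h (hθE z'))
      · exact fun h => hE.trans (hθE z) (hE.trans h (hE.symm (hθE z')))
    · rw [f0, f1]
      exact iff_false_intro (hE01 z y')
    · rw [f0, f1]
      exact iff_false_intro fun h => hE01 z' y (hE.symm h)
    · rw [f1, f1]
      exact (hE1 y y').symm
  · -- the dense orbit
    refine ⟨YY.rt (0, 0) w, fun y => ?_⟩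
    have h1 := dense_orbit (E1 := fun x y : X1 => ∃ n, s1 n x = y)
      (E0 := fun x y : Z => ∃ n, s0 n x = y) q w hqd horb (hE0e.refl w) y
    have h2 : {z : YY q w | FF q w (fun x y : X1 => ∃ n, s1 n x = y)
        (fun x y : Z => ∃ n, s0 n x = y) (YY.rt (0, 0) w) z} =
        {z | ∃ g : G, g • (YY.rt (0, 0) w : YY q w) = z} := by
      ext z
      exact hG _ _
    rw [← h2]
    exact h1

/-- **Main result.** Every nonsmooth aperiodic countable Borel equivalence relation is Borel isomorphic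
to the orbit equivalence relation of a continuous action of a countable group on a Polish space without
isolated points with a dense orbit. -/
theorem result (X : Type) [MeasurableSpace X] [StandardBorelSpace X] (E : X → X → Prop)
    (hE : Equivalence E) (hB : MeasurableSet {p : X × X | E p.1 p.2})
    (hc : ∀ x, {y | E x y}.Countable) (ha : ∀ x, {y | E x y}.Infinite) (hns : ¬ IsSmooth E) :
    ∃ (Y : Type) (_ : TopologicalSpace Y) (_ : PolishSpace Y) (G : Type) (_ : Group G)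
      (_ : Countable G) (_ : MulAction G Y) (_ : ContinuousConstSMul G Y) (f : X → Y),
      (∀ y : Y, ¬ IsOpen {y}) ∧ Function.Bijective f ∧ @Measurable X Y _ (borel Y) f ∧
      (∀ x x', E x x' ↔ ∃ g : G, g • f x = f x') ∧
      ∃ y : Y, Dense {z | ∃ g : G, g • y = z} := by
  obtain ⟨s, hsm, hi, hEs⟩ := Pool.Agent.H139R3.FM.feldman_moore E hE hB hc
  obtain ⟨t, hp, hb, hsc⟩ : ∃ t : TopologicalSpace X, @PolishSpace X t ∧ @BorelSpace X t _ ∧
      ∀ n, @Continuous X X t t (s n) := by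
    let := upgradeStandardBorel X
    obtain ⟨t, -, hp, hb, hsc, -⟩ := Pool.Agent.H139R3.MF.exists_topology s hsm (fun _ : X => ())
      measurable_const
    exact ⟨t, hp, hb, hsc⟩
  obtain ⟨Z, tZ, pZ, ι, s0, Φ, ⟨w⟩, hιc, hιi, ⟨x1, hx1⟩, hs0, hιs, hdense, hiso, hΦm, hΦs, hΦi⟩ :=
    @lemmaA X t hp _ hb s hsc hi E hE hEs hns
  let mZ : MeasurableSpace Z := borel Z
  have bZ : BorelSpace Z := ⟨rfl⟩
  have hιm : Measurable ι := @Continuous.measurable Z X tZ mZ (by infer_instance) t _ hb ι hιc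
  have hιe : MeasurableEmbedding ι := hιm.measurableEmbedding hιi
  -- the relation on `Z`
  have hE0 : ∀ a b : Z, (∃ n, s0 n a = b) ↔ E (ι a) (ι b) := by
    intro a b
    rw [hEs]
    refine exists_congr fun n => ?_
    rw [← hιs, hιi.eq_iff]
  have hi0 : ∀ n z, s0 n (s0 n z) = z := fun n z => hιi (by rw [hιs, hιs, hi])
  -- the Schröder-Bernstein map
  have hf : MeasurableEmbedding (fun z : Z => (((0, 0) : ℕ × ℕ), z)) := by
    refine Measurable.measurableEmbedding (measurable_const.prodMk measurable_id) ?_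
    intro z z' h
    exact congrArg Prod.snd h
  have hg : MeasurableEmbedding (fun p : (ℕ × ℕ) × Z => Φ (Nat.pair p.1.1 p.1.2) p.2) := by
    refine Measurable.measurableEmbedding ?_ ?_
    · refine measurable_from_prod_countable_right fun d => ?_
      exact hΦm (Nat.pair d.1 d.2)
    · rintro ⟨⟨i, n⟩, z⟩ ⟨⟨i', n'⟩, z'⟩ h
      obtain ⟨h1, h2⟩ := hΦi _ _ _ _ h
      obtain ⟨rfl, rfl⟩ := Nat.pair_eq_pair.1 h1
      have h2 : z = z' := h2
      rw [h2]
  obtain ⟨θ, hθ⟩ := sb hf hg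
  have hθE : ∀ z, E (ι z) (ι (θ z).2) := by
    intro z
    rcases hθ z with h | h
    · rw [h]
      exact hE.refl _
    · have h : Φ (Nat.pair (θ z).1.1 (θ z).1.2) (θ z).2 = z := h
      obtain ⟨m, hm⟩ := hΦs (Nat.pair (θ z).1.1 (θ z).1.2) (θ z).2
      rw [h] at hm
      exact hE.symm ((hE0 _ _).1 ⟨m, hm.symm⟩)
  -- the complement
  have hRm : MeasurableSet (range ι)ᶜ := hιe.measurableSet_range.compl
  have hRi : ∀ n x, x ∈ (range ι)ᶜ → s n x ∈ (range ι)ᶜ := by
    rintro n x hx ⟨z, hz⟩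
    apply hx
    exact ⟨s0 n z, by rw [hιs, hz, hi]⟩
  obtain ⟨X1, mX1, hX1, nX1, κ, hκe, hκr, s1, hκs⟩ : ∃ (X1 : Type) (_ : MeasurableSpace X1)
      (_ : StandardBorelSpace X1) (_ : Nonempty X1) (κ : X1 → X), MeasurableEmbedding κ ∧
      range κ = (range ι)ᶜ ∧ ∃ s1 : ℕ → X1 → X1, ∀ n x, κ (s1 n x) = s n (κ x) := by
    refine ⟨((range ι)ᶜ : Set X), inferInstance, hRm.standardBorel, ⟨⟨x1, hx1⟩⟩, Subtype.val,
      MeasurableEmbedding.subtype_coe hRm, Subtype.range_coe, fun n x => ⟨s n x, hRi n x x.2⟩,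
      fun n x => rfl⟩
  have hs1m : ∀ n, Measurable (s1 n) := by
    intro n
    rw [← hκe.measurable_comp_iff]
    have : κ ∘ s1 n = s n ∘ κ := funext fun x => hκs n x
    rw [this]
    exact (hsm n).comp hκe.measurable
  have hi1 : ∀ n x, s1 n (s1 n x) = x := fun n x => hκe.injective (by rw [hκs, hκs, hi])
  have hE1 : ∀ x y : X1, (∃ n, s1 n x = y) ↔ E (κ x) (κ y) := by
    intro x y
    rw [hEs]
    refine exists_congr fun n => ?_
    rw [← hκs, hκe.injective.eq_iff]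
  have hE1e : Equivalence fun x y : X1 => ∃ n, s1 n x = y :=
    ⟨fun a => (hE1 a a).2 (hE.refl _), fun {a b} h => (hE1 b a).2 (hE.symm ((hE1 a b).1 h)),
      fun {a b c} h h' => (hE1 a c).2 (hE.trans ((hE1 a b).1 h) ((hE1 b c).1 h'))⟩
  have hinf : ∀ x : X1, {y | ∃ n, s1 n x = y}.Infinite := by
    intro x hfin
    apply ha (κ x)
    have h3 : {y | E (κ x) y} ⊆ κ '' {y | ∃ n, s1 n x = y} := by
      intro y hy
      obtain ⟨n, hn⟩ := (hEs _ _).1 hy
      exact ⟨s1 n x, ⟨n, rfl⟩, by rw [hκs, hn]⟩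
    exact (hfin.image _).subset h3
  obtain ⟨t1, hp1, hb1, hs1c, q, hq, hqd, π, hπ⟩ := lemmaB s1 hs1m hE1e hinf
  refine assemble E hE ι κ hιe hκe ?_ ?_ s0 hs0 hi0 hE0 s1 hs1c hi1 hE1 ?_ q hq hqd π hπ w θ hθE
    hdense hiso
  · intro x
    by_cases h : x ∈ range ι
    · obtain ⟨z, hz⟩ := h
      exact Or.inl ⟨z, hz.symm⟩
    · have h' : x ∈ range κ := by
        rw [hκr]
        exact h
      obtain ⟨y, hy⟩ := h'
      exact Or.inr ⟨y, hy.symm⟩
  · intro z y h
    have h1 : κ y ∈ (range ι)ᶜ := by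
      rw [← hκr]
      exact ⟨y, rfl⟩
    exact h1 ⟨z, h⟩
  · intro z y h
    have h1 : κ y ∈ (range ι)ᶜ := by
      rw [← hκr]
      exact ⟨y, rfl⟩
    obtain ⟨n, hn⟩ := (hEs _ _).1 h
    rw [← hιs] at hn
    exact h1 ⟨_, hn⟩

end Pool.Agent.Results.MP_06d84d_lc.TransitivePerfect
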